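import Mathlib

/-!
# `p`-schemes and clique minors
-/

namespace PScheme

/-- The vertices `v 0, …, v (p-1)` and the vertex sets `C i j` (`i ≠ j`) form a `p`-scheme in `G`:
the `v i` are distinct, `C i j = C j i` is connected and contains `v i` and `v j`, and `C i j`,
`C k l` are disjoint whenever `i, j, k, l` are pairwise distinct. (The sets `C i i` are
irrelevant.) -/
structure IsScheme {V : Type*} (G : SimpleGraph V) {p : ℕ} (v : Fin p → V)
    (C : Fin p → Fin p → Set V) : Prop where
  inj : Function.Injective v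
  symm : ∀ i j, C i j = C j i
  conn : ∀ i j, i ≠ j → (G.induce (C i j)).Connected
  mem : ∀ i j, i ≠ j → v i ∈ C i j ∧ v j ∈ C i j
  disj : ∀ i j k l, i ≠ j → i ≠ k → i ≠ l → j ≠ k → j ≠ l → k ≠ l → C i j ∩ C k l = ∅

/-- `G` contains a `p`-scheme. -/
def HasScheme {V : Type*} (G : SimpleGraph V) (p : ℕ) : Prop :=
  ∃ (v : Fin p → V) (C : Fin p → Fin p → Set V), IsScheme G v C

/-- `G` is contractible onto `K_g`, i.e. `K_g` is a minor of `G`: there are `g` pairwise disjoint
connected (hence nonempty) vertex sets with an edge between any two of them. -/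
def ContractsOnto {V : Type*} (G : SimpleGraph V) (g : ℕ) : Prop :=
  ∃ B : Fin g → Set V, (∀ i, (G.induce (B i)).Connected) ∧
    (∀ i j, i ≠ j → B i ∩ B j = ∅) ∧
    ∀ i j, i ≠ j → ∃ x ∈ B i, ∃ y ∈ B j, G.Adj x y

/-- The set of all `g` such that every finite graph with a `p`-scheme is contractible
onto `K_g`. -/
def Forced (p : ℕ) : Set ℕ :=
  {g : ℕ | ∀ (V : Type) [Fintype V] (G : SimpleGraph V), HasScheme G p → ContractsOnto G g}

/-- Duchet's `g(p)`: the largest `g` such that every finite graph with a `p`-scheme is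
contractible onto `K_g`. -/
noncomputable def gNum (p : ℕ) : ℕ := sSup (Forced p)

end PScheme
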