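import Pool.Agent.PScheme.Step

/-!
# Lower bound for `gNum`
-/

namespace PScheme

open Set

variable {V : Type*} {G : SimpleGraph V} {p : ℕ} {v : Fin p → V} {C : Fin p → Fin p → Set V}
variable {g : ℕ}

/-- The graph of non-touching pairs of branch sets. -/
def nonadj (G : SimpleGraph V) (D : Fin g → Set V) : SimpleGraph (Fin g) where
  Adj a b := a ≠ b ∧ ¬ Touch G (D a) (D b)
  symm := ⟨fun _ _ h => ⟨h.1.symm, fun t => h.2 t.symm⟩⟩
  loopless := ⟨fun _ h => h.1 rfl⟩

open Classical in
lemma exists_edges {α : Type*} (R : α → α → Prop) (H H' : SimpleGraph α)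
    (hR : ∀ a b, H'.Adj a b → ¬ R a b) : ∀ L : List α, L.Nodup → L.Pairwise H.Adj → TreeOn R L →
    ∃ S : Finset (Sym2 α), S.card = L.length - 1 ∧ (∀ e ∈ S, e ∈ H.edgeSet ∧ e ∉ H'.edgeSet) ∧
      ∀ e ∈ S, ∀ x ∈ e, x ∈ L := by
  intro L
  induction L with
  | nil => intro _ _ _; exact ⟨∅, by simp, by simp, by simp⟩
  | cons a L ih =>
    intro hnd hpw hT
    rw [List.nodup_cons] at hnd
    rw [List.pairwise_cons] at hpw
    obtain ⟨S, hS1, hS2, hS3⟩ := ih hnd.2 hpw.2 hT.2
    rcases hT.1 with hL | ⟨b, hbL, hab⟩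
    · subst hL
      exact ⟨∅, by simp, by simp, by simp⟩
    · refine ⟨insert s(a, b) S, ?_, ?_, ?_⟩
      · rw [Finset.card_insert_of_notMem]
        · rw [hS1]
          have : 0 < L.length := List.length_pos_of_mem hbL
          simp only [List.length_cons]
          omega
        · intro hmem
          exact hnd.1 (hS3 _ hmem a (Sym2.mem_mk_left a b))
      · intro e he
        rw [Finset.mem_insert] at he
        rcases he with rfl | he
        · exact ⟨hpw.1 b hbL, fun h => hR a b h hab⟩
        · exact hS2 e he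
      · intro e he x hx
        rw [Finset.mem_insert] at he
        rcases he with rfl | he
        · rw [Sym2.mem_iff] at hx
          rcases hx with rfl | rfl
          · simp
          · exact List.mem_cons_of_mem _ hbL
        · exact List.mem_cons_of_mem _ (hS3 e he x hx)

lemma count_edges {R : Fin g → Fin g → Prop} {H H' : SimpleGraph (Fin g)} (hle : H' ≤ H)
    (hR : ∀ a b, H'.Adj a b → ¬ R a b) (L : List (Fin g)) (hnd : L.Nodup)
    (hpw : L.Pairwise H.Adj) (hT : TreeOn R L) :
    H'.edgeSet.ncard + (L.length - 1) ≤ H.edgeSet.ncard := by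
  classical
  obtain ⟨S, hS1, hS2, -⟩ := exists_edges R H H' hR L hnd hpw hT
  rw [← hS1, ← Set.ncard_coe_finset S, ← Set.ncard_union_eq]
  · apply Set.ncard_le_ncard _ (Set.toFinite _)
    rintro e (he | he)
    · exact SimpleGraph.edgeSet_mono hle he
    · exact (hS2 e he).1
  · rw [Set.disjoint_left]
    intro e he heS
    exact (hS2 e heS).2 he

/-- The guaranteed gain when `N` pairs of the `g` branch sets are still non-adjacent. -/
def gain (g R N : ℕ) : ℕ := Nat.findGreatest (fun r => (r - 1) * g ^ 2 < 2 * r * N) R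

lemma gain_pos {g R N : ℕ} (hR : 1 ≤ R) (hN : 1 ≤ N) : 1 ≤ gain g R N := by
  apply Nat.le_findGreatest hR
  simp
  omega

lemma gain_spec {g R N : ℕ} (hR : 1 ≤ R) (hN : 1 ≤ N) :
    (gain g R N - 1) * g ^ 2 < 2 * gain g R N * N := by
  have h := Nat.findGreatest_spec (P := fun r => (r - 1) * g ^ 2 < 2 * r * N) (n := R) hR
    (by simp; omega)
  exact h

lemma gain_mono {g R N N' : ℕ} (h : N ≤ N') : gain g R N ≤ gain g R N' := by
  apply Nat.findGreatest_mono _ le_rfl
  intro r hr
  calc (r - 1) * g ^ 2 < 2 * r * N := hr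
    _ ≤ 2 * r * N' := Nat.mul_le_mul_left _ h

lemma gain_le {g R N : ℕ} : gain g R N ≤ R := Nat.findGreatest_le R

lemma exists_clique {R N : ℕ} (hR : 1 ≤ R) (H : SimpleGraph (Fin g))
    (hN : H.edgeSet.ncard = N) (hN1 : 1 ≤ N) :
    ∃ s : Finset (Fin g), H.IsNClique (gain g R N + 1) s := by
  classical
  by_contra hcon
  push Not at hcon
  have hcf : H.CliqueFree (gain g R N + 1) := hcon
  have h1 := hcf.card_edgeFinset_le
  have h2 : H.edgeFinset.card = N := by
    rw [← hN, Set.ncard_eq_toFinset_card']
    rfl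
  simp only [Fintype.card_fin] at h1
  rw [h2] at h1
  have hspec := gain_spec (g := g) hR hN1
  have hpos := gain_pos (g := g) hR hN1
  generalize gain g R N = r at *
  set s := g % r with hs
  have hsr : s < r := Nat.mod_lt _ hpos
  have hsg : s ≤ g := Nat.mod_le _ _
  -- `2 r N ≤ (r-1) g^2`
  have h3 : 2 * r * N ≤ (g ^ 2 - s ^ 2) * (r - 1) + r * (s * (s - 1)) := by
    calc 2 * r * N ≤ 2 * r * ((g ^ 2 - s ^ 2) * (r - 1) / (2 * r) + s.choose 2) :=
          Nat.mul_le_mul_left _ h1
      _ = 2 * r * ((g ^ 2 - s ^ 2) * (r - 1) / (2 * r)) + r * (2 * s.choose 2) := by ring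
      _ ≤ (g ^ 2 - s ^ 2) * (r - 1) + r * (s * (s - 1)) := by
          apply add_le_add (Nat.mul_div_le _ _)
          apply Nat.mul_le_mul_left
          rw [Nat.choose_two_right]
          exact Nat.mul_div_le _ _
  have h4 : (g ^ 2 - s ^ 2) * (r - 1) + r * (s * (s - 1)) ≤ (r - 1) * g ^ 2 := by
    obtain ⟨q, rfl⟩ : ∃ q, r = q + 1 := ⟨r - 1, by omega⟩
    have hsq : s ^ 2 ≤ g ^ 2 := Nat.pow_le_pow_left hsg 2
    obtain ⟨t, ht⟩ := Nat.exists_eq_add_of_le hsq
    rw [ht]
    simp only [Nat.add_sub_cancel_left, Nat.add_sub_cancel]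
    rcases Nat.eq_zero_or_pos s with h0 | h0
    · rw [h0]; simp; ring_nf; exact le_rfl
    · obtain ⟨u, hu⟩ : ∃ u, s = u + 1 := ⟨s - 1, by omega⟩
      have hle : s ≤ q := by omega
      rw [hu] at hle ⊢
      simp only [Nat.add_sub_cancel]
      nlinarith
  omega

/-- The cost (number of helper indices) of completing `N` non-adjacent pairs. -/
noncomputable def cost (g R N : ℕ) : ℝ := ∑ m ∈ Finset.range N, (1 : ℝ) / gain g R (m + 1)

lemma cost_step {g R N N' : ℕ} (hR : 1 ≤ R) (hN : 1 ≤ N) (h : N' + gain g R N ≤ N) :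
    cost g R N' + 1 ≤ cost g R N := by
  have hpos := gain_pos (g := g) hR hN
  have hle : N' ≤ N := by omega
  have h1 : cost g R N = cost g R N' + ∑ m ∈ Finset.Ico N' N, (1 : ℝ) / gain g R (m + 1) := by
    unfold cost
    rw [Finset.sum_range_add_sum_Ico _ hle]
  rw [h1]
  have h2 : ∑ m ∈ Finset.Ico N' N, (1 : ℝ) / gain g R N ≤
      ∑ m ∈ Finset.Ico N' N, (1 : ℝ) / gain g R (m + 1) := by
    apply Finset.sum_le_sum
    intro m hm
    rw [Finset.mem_Ico] at hm
    have h3 : gain g R (m + 1) ≤ gain g R N := gain_mono (by omega)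
    have h4 : 1 ≤ gain g R (m + 1) := gain_pos hR (by omega)
    have h5 : (0 : ℝ) < gain g R (m + 1) := by exact_mod_cast h4
    apply one_div_le_one_div_of_le h5
    exact_mod_cast h3
  rw [Finset.sum_const, Nat.card_Ico, nsmul_eq_mul] at h2
  have h3 : (1 : ℝ) ≤ ((N - N' : ℕ) : ℝ) * (1 / gain g R N) := by
    have h5 : (0 : ℝ) < gain g R N := by exact_mod_cast hpos
    rw [mul_one_div, le_div_iff₀ h5, one_mul]
    exact_mod_cast (by omega : gain g R N ≤ N - N')
  linarith

lemma cost_nonneg (g R N : ℕ) : 0 ≤ cost g R N := by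
  unfold cost
  positivity

lemma nonadj_le {D D' : Fin g → Set V} (h : ∀ b, D b ⊆ D' b) : nonadj G D' ≤ nonadj G D := by
  intro a b hab
  exact ⟨hab.1, fun t => hab.2 (t.mono (h a) (h b))⟩

open Classical in
lemma build (hS : IsScheme G v C) (hp : 4 ≤ p) {h : Fin g → Fin p}
    (hh : Function.Injective h) {R : ℕ} (hR : 1 ≤ R) : ∀ (N : ℕ) (D : Fin g → Set V)
    (K : Fin g → Set (Fin p)) (U : Finset (Fin p)), Inv G v C h D K →
    (∀ k ∈ U, ∀ c, k ≠ h c) → (∀ k ∈ U, ∀ b, k ∉ K b) → (nonadj G D).edgeSet.ncard = N →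
    cost g R N ≤ U.card →
    ∃ (D' : Fin g → Set V) (K' : Fin g → Set (Fin p)), Inv G v C h D' K' ∧
      (nonadj G D').edgeSet.ncard = 0 := by
  intro N
  induction N using Nat.strong_induction_on with
  | _ N ih =>
    intro D K U hI hU1 hU2 hN hcost
    rcases Nat.eq_zero_or_pos N with h0 | hpos
    · exact ⟨D, K, hI, by rw [hN, h0]⟩
    have hU : 0 < U.card := by
      have h1 := cost_step (g := g) (R := R) (N := N) (N' := N - gain g R N) hR hpos
        (by
          -- need `gain ≤ N`
          obtain ⟨s, hs⟩ := exists_clique hR (nonadj G D) hN hpos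
          have h2 := count_edges (R := fun _ _ => True) (H := nonadj G D) (H' := ⊥) bot_le
            (fun a b hab => absurd hab (by simp)) s.toList s.nodup_toList
            (by
              rw [List.pairwise_iff_getElem]
              intro i j hi hj hij
              apply hs.isClique (Finset.mem_toList.1 (List.getElem_mem hi))
                (Finset.mem_toList.1 (List.getElem_mem hj))
              intro e
              exact absurd ((s.nodup_toList.getElem_inj_iff).1 e) (by omega))
            (by
              have : ∀ L : List (Fin g), TreeOn (fun _ _ => True) L := by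
                intro L
                induction L with
                | nil => trivial
                | cons a L ihL =>
                  refine ⟨?_, ihL⟩
                  rcases L with _ | ⟨b, L⟩
                  · exact Or.inl rfl
                  · exact Or.inr ⟨b, by simp, trivial⟩
              exact this _)
          rw [Finset.length_toList, hs.card_eq, hN] at h2
          simp at h2
          omega)
      have h2 := cost_nonneg g R (N - gain g R N)
      have h3 : (1 : ℝ) ≤ U.card := by linarith
      exact_mod_cast h3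
    obtain ⟨k, hkU⟩ := Finset.card_pos.1 hU
    obtain ⟨s, hs⟩ := exists_clique hR (nonadj G D) hN hpos
    obtain ⟨D', K', hI', hDD', hKK', -, -, hT⟩ :=
      hI.step hS hp hh (hU1 k hkU) (hU2 k hkU) s.toList s.nodup_toList
    have hcount := count_edges (H := nonadj G D) (H' := nonadj G D') (nonadj_le hDD')
      (fun a b hab => hab.2) s.toList s.nodup_toList
      (by
        rw [List.pairwise_iff_getElem]
        intro i j hi hj hij
        apply hs.isClique (Finset.mem_toList.1 (List.getElem_mem hi))
          (Finset.mem_toList.1 (List.getElem_mem hj))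
        intro e
        exact absurd ((s.nodup_toList.getElem_inj_iff).1 e) (by omega)) hT
    rw [Finset.length_toList, hs.card_eq, hN, Nat.add_sub_cancel] at hcount
    have hgpos := gain_pos (g := g) hR hpos
    have hcs := cost_step (g := g) (R := R) hR hpos hcount
    refine ih _ (by omega) D' K' (U.erase k) hI' ?_ ?_ rfl ?_
    · intro k' hk'
      exact hU1 k' (Finset.mem_of_mem_erase hk')
    · intro k' hk' b hb
      rcases hKK' b k' hb with h1 | h1
      · exact (Finset.ne_of_mem_erase hk') h1
      · exact hU2 k' (Finset.mem_of_mem_erase hk') b h1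
    · rw [Finset.card_erase_of_mem hkU]
      have : ((U.card - 1 : ℕ) : ℝ) = U.card - 1 := by
        rw [Nat.cast_sub hU, Nat.cast_one]
      rw [this]
      linarith

/-- Main combinatorial lower bound: if `g + cost ≤ p` then a graph with a `p`-scheme is
contractible onto `K_g`. -/
theorem contractsOnto_of_cost (hS : IsScheme G v C) (hp : 4 ≤ p) {R : ℕ} (hR : 1 ≤ R)
    (hc : (g : ℝ) + cost g R (g.choose 2) ≤ p) : ContractsOnto G g := by
  classical
  have hgp : g ≤ p := by
    have := cost_nonneg g R (g.choose 2)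
    exact_mod_cast (by linarith : (g : ℝ) ≤ p)
  let h : Fin g → Fin p := Fin.castLE hgp
  have hh : Function.Injective h := Fin.castLE_injective hgp
  let D : Fin g → Set V := fun a => {v (h a)}
  let K : Fin g → Set (Fin p) := fun _ => ∅
  have hI : Inv G v C h D K := by
    refine ⟨fun a => rfl, ?_, ?_, ?_, ?_⟩
    · intro a
      have h1 := (SimpleGraph.Walk.nil : G.Walk (v (h a)) (v (h a))).connected_induce_support
      have h2 : {x | x ∈ (SimpleGraph.Walk.nil : G.Walk (v (h a)) (v (h a))).support} = D a := by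
        ext x; simp [D]
      rw [← h2]; exact h1
    · intro a x hx
      exact Or.inl hx
    · intro a b hab x hx hxb
      have h1 : x = v (h a) := hx
      have h2 : x = v (h b) := hxb
      exact hab (hh (hS.inj (h1.symm.trans h2)))
    · intro a k hk
      exact absurd hk (Set.notMem_empty k)
  let U : Finset (Fin p) := Finset.univ \ Finset.univ.image h
  have hUcard : U.card = p - g := by
    have h1 : U.card = (Finset.univ : Finset (Fin p)).card - (Finset.univ.image h).card := by
      apply Finset.card_sdiff_of_subset (Finset.subset_univ _)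
    rw [h1, Finset.card_image_of_injective _ hh, Finset.card_univ, Finset.card_univ,
      Fintype.card_fin, Fintype.card_fin]
  have hmono : cost g R (nonadj G D).edgeSet.ncard ≤ cost g R (g.choose 2) := by
    unfold cost
    apply Finset.sum_le_sum_of_subset_of_nonneg
    · apply Finset.range_mono
      have h1 : (nonadj G D).edgeFinset.card ≤ (Fintype.card (Fin g)).choose 2 :=
        SimpleGraph.card_edgeFinset_le_card_choose_two
      rw [Fintype.card_fin] at h1
      have h2 : (nonadj G D).edgeSet.ncard = (nonadj G D).edgeFinset.card := by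
        rw [Set.ncard_eq_toFinset_card']; rfl
      rw [h2]; exact h1
    · intro i _ _
      positivity
  obtain ⟨D', K', hI', hzero⟩ := build hS hp hh hR _ D K U hI
    (by
      intro k hk c hkc
      have : k ∉ Finset.univ.image h := (Finset.mem_sdiff.1 hk).2
      exact this (Finset.mem_image.2 ⟨c, Finset.mem_univ _, hkc.symm⟩))
    (fun k _ b hb => hb) rfl
    (by
      rw [hUcard, Nat.cast_sub hgp]
      linarith)
  refine ⟨D', hI'.conn, ?_, ?_⟩
  · intro a b hab
    ext x
    constructor
    · rintro ⟨h1, h2⟩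
      exact hI'.disj a b hab x h1 h2
    · intro h; exact h.elim
  · intro a b hab
    by_contra hcon
    have hadj : (nonadj G D').Adj a b := ⟨hab, hcon⟩
    have h1 : (nonadj G D').edgeSet = ∅ := by
      rwa [Set.ncard_eq_zero (Set.toFinite _)] at hzero
    have h2 : s(a, b) ∈ (nonadj G D').edgeSet := hadj
    rw [h1] at h2
    exact h2

/-- The cost is at most `(g²/2) (1/R + ∑_{r=2}^R 1/r²)`. -/
lemma cost_le {g R : ℕ} (hR : 1 ≤ R) (M : ℕ) :
    cost g R M ≤ M / R + (g : ℝ) ^ 2 / 2 * ∑ r ∈ Finset.Ico 1 R, (1 : ℝ) / ((r : ℝ) + 1) ^ 2 := by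
  classical
  -- telescoping
  have htel : ∀ w : ℕ, 1 ≤ w → w ≤ R → (1 : ℝ) / w = 1 / R +
      ∑ r ∈ Finset.Ico 1 R, if w ≤ r then (1 : ℝ) / (r * (r + 1)) else 0 := by
    intro w hw1 hwR
    rw [← Finset.sum_filter]
    have hfil : Finset.filter (fun r => w ≤ r) (Finset.Ico 1 R) = Finset.Ico w R := by
      ext r
      simp only [Finset.mem_filter, Finset.mem_Ico]
      omega
    rw [hfil]
    induction R, hwR using Nat.le_induction with
    | base => simp
    | succ n hn ih =>
      rw [Finset.sum_Ico_succ_top hn]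
      have hn0 : (0 : ℝ) < n := by
        exact_mod_cast (by omega : 0 < n)
      have ih' := ih (by omega) (by
        ext r
        simp only [Finset.mem_filter, Finset.mem_Ico]
        omega)
      rw [ih']
      push_cast
      field_simp
      ring
  have h1 : cost g R M = ∑ m ∈ Finset.range M, ((1 : ℝ) / R +
      ∑ r ∈ Finset.Ico 1 R, if gain g R (m + 1) ≤ r then (1 : ℝ) / (r * (r + 1)) else 0) := by
    unfold cost
    apply Finset.sum_congr rfl
    intro m _
    exact htel _ (gain_pos hR (by omega)) gain_le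
  rw [h1, Finset.sum_add_distrib, Finset.sum_const, Finset.card_range, nsmul_eq_mul,
    Finset.sum_comm, mul_one_div]
  apply add_le_add le_rfl
  rw [Finset.mul_sum]
  apply Finset.sum_le_sum
  intro r hr
  rw [Finset.mem_Ico] at hr
  rw [← Finset.sum_filter, Finset.sum_const, nsmul_eq_mul]
  have hr0 : (0 : ℝ) < r := by exact_mod_cast (by omega : 0 < r)
  have hcard : ((Finset.filter (fun m => gain g R (m + 1) ≤ r) (Finset.range M)).card : ℝ) ≤
      r * (g : ℝ) ^ 2 / (2 * (r + 1)) := by
    have hsub : Finset.filter (fun m => gain g R (m + 1) ≤ r) (Finset.range M) ⊆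
        Finset.range (r * g ^ 2 / (2 * (r + 1))) := by
      intro m hm
      rw [Finset.mem_filter] at hm
      rw [Finset.mem_range]
      have h2 : ¬ ((r + 1 - 1) * g ^ 2 < 2 * (r + 1) * (m + 1)) := by
        have := Nat.findGreatest_is_greatest
          (P := fun r => (r - 1) * g ^ 2 < 2 * r * (m + 1)) (n := R) (k := r + 1)
          (by
            have := hm.2
            unfold gain at this
            omega) (by omega)
        exact this
      rw [Nat.add_sub_cancel] at h2
      push Not at h2
      have h3 : (m + 1) ≤ r * g ^ 2 / (2 * (r + 1)) := by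
        rw [Nat.le_div_iff_mul_le (by positivity)]
        calc (m + 1) * (2 * (r + 1)) = 2 * (r + 1) * (m + 1) := by ring
          _ ≤ r * g ^ 2 := h2
      omega
    calc ((Finset.filter (fun m => gain g R (m + 1) ≤ r) (Finset.range M)).card : ℝ) ≤
        ((Finset.range (r * g ^ 2 / (2 * (r + 1)))).card : ℝ) := by
          exact_mod_cast Finset.card_le_card hsub
      _ = ((r * g ^ 2 / (2 * (r + 1)) : ℕ) : ℝ) := by rw [Finset.card_range]
      _ ≤ ((r * g ^ 2 : ℕ) : ℝ) / ((2 * (r + 1) : ℕ) : ℝ) := Nat.cast_div_le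
      _ = r * (g : ℝ) ^ 2 / (2 * (r + 1)) := by push_cast; ring
  calc ((Finset.filter (fun m => gain g R (m + 1) ≤ r) (Finset.range M)).card : ℝ) *
        (1 / (r * (r + 1))) ≤ (r * (g : ℝ) ^ 2 / (2 * (r + 1))) * (1 / (r * (r + 1))) := by
        apply mul_le_mul_of_nonneg_right hcard
        positivity
    _ = (g : ℝ) ^ 2 / 2 * (1 / ((r : ℝ) + 1) ^ 2) := by
        field_simp

end PScheme
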