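import Pool.Agent.PScheme.Upper
import Pool.Agent.PScheme.Lower

/-!
# The number `g(p)`: existence and asymptotic bounds
-/

namespace PScheme

open Set

lemma complete_hasScheme (p : ℕ) : HasScheme (⊤ : SimpleGraph (Fin p)) p := by
  refine ⟨id, fun i j => {i, j}, Function.injective_id, ?_, ?_, ?_, ?_⟩
  · intro i j; exact Set.pair_comm i j
  · intro i j hij
    exact SimpleGraph.induce_pair_connected_of_adj (by simpa using hij)
  · intro i j _
    exact ⟨by simp, by simp⟩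
  · intro i j k l _ hik hil hjk hjl _
    ext x
    simp only [Set.mem_inter_iff, Set.mem_insert_iff, Set.mem_singleton_iff,
      Set.mem_empty_iff_false, iff_false]
    rintro ⟨rfl | rfl, h | h⟩
    · exact hik h
    · exact hil h
    · exact hjk h
    · exact hjl h

lemma forced_bdd (p : ℕ) : ∀ g ∈ Forced p, g ≤ p := by
  intro g hg
  obtain ⟨B, hconn, hdisj, -⟩ := hg (Fin p) ⊤ (complete_hasScheme p)
  let f : ∀ s, B s := fun s => (hconn s).nonempty.some
  have hinj : Function.Injective fun s => (f s : Fin p) := by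
    intro s t hst
    by_contra hne
    have h1 : (f s : Fin p) ∈ B s ∩ B t := ⟨(f s).2, by
      have := (f t).2
      simp only at hst
      rw [← hst] at this
      exact this⟩
    rw [hdisj s t hne] at h1
    exact h1
  simpa using Fintype.card_le_of_injective _ hinj

lemma gNum_isGreatest (p : ℕ) : IsGreatest (Forced p) (gNum p) := by
  have h0 : (Forced p).Nonempty := ⟨0, fun V _ G _ =>
    ⟨fun i => i.elim0, fun i => i.elim0, fun i => i.elim0, fun i => i.elim0⟩⟩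
  have hb : BddAbove (Forced p) := ⟨p, forced_bdd p⟩
  exact ⟨Nat.sSup_mem h0 hb, fun g hg => le_csSup hb hg⟩

lemma three_eq_zero {n : ℕ} (x : Fin n → ZMod 3) : x + x + x = 0 := by
  funext i
  have : ∀ y : ZMod 3, y + y + y = 0 := by decide
  exact this _

/-- Upper bound: `g(p) ≤ (1/2 + ε) p` for all large `p`. -/
theorem gNum_upper {ε : ℝ} (hε : 0 < ε) : ∃ p₀ : ℕ, ∀ p ≥ p₀, (gNum p : ℝ) ≤ (1 / 2 + ε) * p := by
  classical
  set δ : ℝ := 2 * ε / 3 with hδ
  have hδ0 : 0 < δ := by positivity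
  refine ⟨max 10 (cornersTheoremBound δ), fun p hp => ?_⟩
  have hp10 : 10 ≤ p := le_trans (le_max_left _ _) hp
  have hpc : cornersTheoremBound δ ≤ p := le_trans (le_max_right _ _) hp
  have hp0 : (10 : ℝ) ≤ p := by exact_mod_cast hp10
  by_cases hg : gNum p < 5
  · have h1 : (gNum p : ℝ) ≤ 5 := by exact_mod_cast hg.le
    nlinarith
  push Not at hg
  set n := Nat.clog 3 p with hn
  have hn1 : p ≤ 3 ^ n := Nat.le_pow_clog (by norm_num) p
  have hn2 : 3 ^ n ≤ 3 * p := by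
    have h1 : 3 ^ (n - 1) < p := Nat.pow_pred_clog_lt_self (by norm_num) (by omega)
    have h2 : 0 < n := Nat.clog_pos (by norm_num) (by omega)
    calc 3 ^ n = 3 * 3 ^ (n - 1) := by
          conv_lhs => rw [← Nat.succ_pred_eq_of_pos h2]
          rw [pow_succ, Nat.pred_eq_sub_one]; ring
      _ ≤ 3 * p := by omega
  have hcard : Fintype.card (Fin n → ZMod 3) = 3 ^ n := by
    rw [Fintype.card_fun, ZMod.card, Fintype.card_fin]
  obtain ⟨φ⟩ : Nonempty (Fin p ↪ (Fin n → ZMod 3)) := by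
    apply Function.Embedding.nonempty_of_card_le
    rw [hcard, Fintype.card_fin]; exact hn1
  obtain ⟨T, hT1, hT2⟩ := block_minor φ.injective hg
    ((gNum_isGreatest p).1 _ (blockGraph φ) ⟨_, _, block_scheme φ⟩)
  have hfree : ThreeAPFree ((T.map φ : Finset (Fin n → ZMod 3)) : Set (Fin n → ZMod 3)) := by
    intro a ha b hb c hc habc
    simp only [Finset.coe_map, Set.mem_image, Finset.mem_coe] at ha hb hc
    obtain ⟨i, hi, rfl⟩ := ha
    obtain ⟨j, hj, rfl⟩ := hb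
    obtain ⟨k, hk, rfl⟩ := hc
    by_contra hne
    have hij : i ≠ j := fun e => hne (by rw [e])
    have h3i := three_eq_zero (φ i)
    have h3j := three_eq_zero (φ j)
    have hjk : j ≠ k := by
      rintro rfl
      exact hne (add_right_cancel habc)
    have hik : i ≠ k := by
      rintro rfl
      apply hne
      have h1 : φ i + φ i + φ i = φ j + φ j + φ j := by rw [h3i, h3j]
      rw [habc] at h1
      exact add_left_cancel h1
    refine hT2 i hi j hj k hk hij hik hjk ?_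
    calc φ i + φ j + φ k = (φ i + φ k) + φ j := by abel
      _ = φ j + φ j + φ j := by rw [habc]
      _ = 0 := h3j
  have hlt : ((T.map φ).card : ℝ) < δ * Fintype.card (Fin n → ZMod 3) := by
    by_contra hcon
    push Not at hcon
    exact roth_3ap_theorem δ hδ0 (by rw [hcard]; omega) (T.map φ) hcon hfree
  rw [Finset.card_map, hcard] at hlt
  have h1 : (2 * (gNum p : ℝ)) ≤ p + T.card := by exact_mod_cast hT1
  have h2 : (((3 ^ n : ℕ)) : ℝ) ≤ 3 * p := by exact_mod_cast hn2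
  have h3 : δ * ((3 ^ n : ℕ) : ℝ) ≤ δ * (3 * p) := mul_le_mul_of_nonneg_left h2 hδ0.le
  have h4 : δ * (3 * (p : ℝ)) = 2 * ε * p := by rw [hδ]; ring
  linarith

/-- Explicit lower bound. -/
theorem le_gNum {p g R : ℕ} (hp : 4 ≤ p) (hR : 1 ≤ R)
    (h : (g : ℝ) + (g : ℝ) ^ 2 / 2 *
      (1 / R + ∑ r ∈ Finset.Ico 1 R, (1 : ℝ) / ((r : ℝ) + 1) ^ 2) ≤ p) : g ≤ gNum p := by
  apply (gNum_isGreatest p).2
  intro V _ G ⟨v, C, hS⟩
  refine contractsOnto_of_cost hS hp hR (le_trans ?_ h)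
  have h1 := cost_le (g := g) hR (g.choose 2)
  have h2 : ((g.choose 2 : ℕ) : ℝ) ≤ (g : ℝ) ^ 2 / 2 := by
    rw [Nat.cast_choose_two]
    have : (0 : ℝ) ≤ g := Nat.cast_nonneg g
    nlinarith
  have hR0 : (0 : ℝ) < R := by exact_mod_cast hR
  have h3 : ((g.choose 2 : ℕ) : ℝ) / R ≤ (g : ℝ) ^ 2 / 2 * (1 / R) := by
    rw [mul_one_div]
    exact div_le_div_of_nonneg_right h2 hR0.le
  rw [mul_add]
  linarith

lemma tendsto_S : Filter.Tendsto (fun R : ℕ => (1 : ℝ) / R +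
    ∑ r ∈ Finset.Ico 1 R, (1 : ℝ) / ((r : ℝ) + 1) ^ 2) Filter.atTop
    (nhds (Real.pi ^ 2 / 6 - 1)) := by
  have h1 : Filter.Tendsto (fun R : ℕ => (1 : ℝ) / R +
      (∑ i ∈ Finset.range (R + 1), (1 : ℝ) / (i : ℝ) ^ 2 - 1)) Filter.atTop
      (nhds (0 + (Real.pi ^ 2 / 6 - 1))) := by
    apply Filter.Tendsto.add tendsto_one_div_atTop_nhds_zero_nat
    apply Filter.Tendsto.sub_const
    exact (hasSum_zeta_two.tendsto_sum_nat).comp (Filter.tendsto_add_atTop_nat 1)
  rw [zero_add] at h1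
  refine h1.congr' ?_
  filter_upwards [Filter.eventually_ge_atTop 1] with R hR
  congr 1
  induction R, hR using Nat.le_induction with
  | base => norm_num [Finset.sum_range_succ]
  | succ n hn ih =>
    rw [Finset.sum_range_succ, Finset.sum_Ico_succ_top hn]
    push_cast
    linarith

/-- Lower bound: `g(p) ≥ c √p` for all large `p`, whenever `c² (π²/6 - 1) < 2`. -/
theorem gNum_lower {c : ℝ} (hc0 : 0 ≤ c) (hc : c ^ 2 * (Real.pi ^ 2 / 6 - 1) < 2) :
    ∃ p₀ : ℕ, ∀ p ≥ p₀, c * √(p : ℝ) ≤ gNum p := by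
  -- choose `R`
  have h1 : Filter.Tendsto (fun R : ℕ => c ^ 2 * ((1 : ℝ) / R +
      ∑ r ∈ Finset.Ico 1 R, (1 : ℝ) / ((r : ℝ) + 1) ^ 2)) Filter.atTop
      (nhds (c ^ 2 * (Real.pi ^ 2 / 6 - 1))) := tendsto_S.const_mul _
  obtain ⟨R, hR1, hR⟩ := ((Filter.eventually_ge_atTop 1).and (h1.eventually_lt_const hc)).exists
  set S : ℝ := (1 : ℝ) / R + ∑ r ∈ Finset.Ico 1 R, (1 : ℝ) / ((r : ℝ) + 1) ^ 2 with hS
  have hS0 : 0 ≤ S := by positivity
  set δ : ℝ := 1 - c ^ 2 * S / 2 with hδ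
  have hδ0 : 0 < δ := by rw [hδ]; linarith
  set A : ℝ := c + c * S + 1 + S / 2 with hA
  have hA0 : 0 ≤ A := by positivity
  refine ⟨max 4 (⌈(A / δ) ^ 2⌉₊ + 1), fun p hp => ?_⟩
  have hp4 : 4 ≤ p := le_trans (le_max_left _ _) hp
  have hp2 : (A / δ) ^ 2 ≤ p := by
    have h2 : ⌈(A / δ) ^ 2⌉₊ + 1 ≤ p := le_trans (le_max_right _ _) hp
    calc (A / δ) ^ 2 ≤ ⌈(A / δ) ^ 2⌉₊ := Nat.le_ceil _
      _ ≤ p := by exact_mod_cast (by omega : ⌈(A / δ) ^ 2⌉₊ ≤ p)
  have hsq : √(p : ℝ) * √(p : ℝ) = p := Real.mul_self_sqrt (Nat.cast_nonneg p)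
  have hs1 : 1 ≤ √(p : ℝ) := by
    rw [Real.one_le_sqrt]
    exact_mod_cast (by omega : 1 ≤ p)
  have hs2 : A / δ ≤ √(p : ℝ) := Real.le_sqrt_of_sq_le hp2
  have hs3 : A ≤ δ * √(p : ℝ) := by
    rw [div_le_iff₀ hδ0] at hs2
    linarith
  set s : ℝ := √(p : ℝ) with hs
  set g : ℕ := ⌈c * s⌉₊ with hg
  have hcs : 0 ≤ c * s := by positivity
  have hg1 : c * s ≤ g := Nat.le_ceil _
  have hg2 : (g : ℝ) < c * s + 1 := Nat.ceil_lt_add_one hcs
  refine le_trans hg1 ?_
  have hle : g ≤ gNum p := by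
    apply le_gNum hp4 hR1
    rw [← hS]
    have hg0 : (0 : ℝ) ≤ g := Nat.cast_nonneg g
    have h3 : (g : ℝ) ^ 2 ≤ (c * s + 1) ^ 2 := by
      apply pow_le_pow_left₀ hg0 hg2.le
    have h4 : (g : ℝ) + (g : ℝ) ^ 2 / 2 * S ≤ (c * s + 1) + (c * s + 1) ^ 2 / 2 * S := by
      have := mul_le_mul_of_nonneg_right h3 hS0
      linarith
    have h5 : (c * s + 1) + (c * s + 1) ^ 2 / 2 * S ≤ s * s := by
      have h6 : (c * s + 1) + (c * s + 1) ^ 2 / 2 * S =
          (c ^ 2 * S / 2) * (s * s) + (c + c * S) * s + (1 + S / 2) := by ring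
      have h7 : (1 + S / 2) ≤ (1 + S / 2) * s := by nlinarith
      have h8 : A * s ≤ δ * s * s := mul_le_mul_of_nonneg_right hs3 (by positivity)
      have h9 : A * s = (c + c * S) * s + (1 + S / 2) * s := by rw [hA]; ring
      have h10 : δ * s * s = s * s - (c ^ 2 * S / 2) * (s * s) := by rw [hδ]; ring
      linarith
    linarith
  exact_mod_cast hle

end PScheme
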