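import Pool.Agent.PScheme.Defs

/-!
# Growing branch sets through a fresh index
-/

namespace PScheme

open Set

variable {V : Type*} {G : SimpleGraph V} {p : ℕ} {v : Fin p → V} {C : Fin p → Fin p → Set V}

/-- Two vertex sets are joined by an edge. -/
def Touch (G : SimpleGraph V) (A B : Set V) : Prop := ∃ x ∈ A, ∃ y ∈ B, G.Adj x y

lemma Touch.symm {A B : Set V} (h : Touch G A B) : Touch G B A := by
  obtain ⟨x, hx, y, hy, hxy⟩ := h
  exact ⟨y, hy, x, hx, hxy.symm⟩

lemma Touch.mono {A B A' B' : Set V} (h : Touch G A B) (hA : A ⊆ A') (hB : B ⊆ B') :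
    Touch G A' B' := by
  obtain ⟨x, hx, y, hy, hxy⟩ := h
  exact ⟨x, hA hx, y, hB hy, hxy⟩

/-- A walk leaving `Eᶜ` has an initial part inside `Eᶜ` that ends next to a vertex of `E`. -/
lemma exists_prefix {S E : Set V} : ∀ {a b : V} (w : G.Walk a b), (∀ z ∈ w.support, z ∈ S) →
    a ∉ E → b ∈ E →
    ∃ (x y : V) (w' : G.Walk a x), (∀ z ∈ w'.support, z ∈ S ∧ z ∉ E) ∧ y ∈ E ∧ y ∈ S ∧ G.Adj x y := by
  intro a b w
  induction w with
  | nil => intro _ h1 h2; exact absurd h2 h1
  | @cons a c b h w ih =>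
    intro hS ha hb
    by_cases hc : c ∈ E
    · refine ⟨a, c, SimpleGraph.Walk.nil, ?_, hc, ?_, h⟩
      · intro z hz
        simp only [SimpleGraph.Walk.support_nil, List.mem_singleton] at hz
        subst hz
        exact ⟨hS _ (by simp), ha⟩
      · exact hS _ (by simp)
    · obtain ⟨x, y, w', h1, h2, h3, h4⟩ := ih
        (fun z hz => hS z (by simp [hz])) hc hb
      refine ⟨x, y, SimpleGraph.Walk.cons h w', ?_, h2, h3, h4⟩
      intro z hz
      rw [SimpleGraph.Walk.support_cons, List.mem_cons] at hz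
      rcases hz with rfl | hz
      · exact ⟨hS _ (by simp), ha⟩
      · exact h1 z hz

/-- In a connected vertex set `S` meeting `E` at `b`, starting at `a ∉ E`, there is a connected
`W ⊆ S \ E` containing `a` which touches `S ∩ E`. -/
lemma exists_part {S E : Set V} (hS : (G.induce S).Connected) {a b : V} (ha : a ∈ S) (hb : b ∈ S)
    (haE : a ∉ E) (hbE : b ∈ E) :
    ∃ W : Set V, a ∈ W ∧ (G.induce W).Connected ∧ (∀ z ∈ W, z ∈ S ∧ z ∉ E) ∧
      ∃ x ∈ W, ∃ y, y ∈ E ∧ y ∈ S ∧ G.Adj x y := by
  obtain ⟨w0⟩ := hS.preconnected ⟨a, ha⟩ ⟨b, hb⟩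
  let w : G.Walk a b := w0.map (SimpleGraph.Embedding.induce S).toHom
  have hw : ∀ z ∈ w.support, z ∈ S := by
    intro z hz
    have hz' : z ∈ (w0.map (SimpleGraph.Embedding.induce S).toHom).support := hz
    rw [SimpleGraph.Walk.support_map] at hz'
    obtain ⟨y, _, rfl⟩ := List.mem_map.1 hz'
    exact y.2
  obtain ⟨x, y, w', h1, h2, h3, h4⟩ := exists_prefix w hw haE hbE
  refine ⟨{z | z ∈ w'.support}, w'.start_mem_support, w'.connected_induce_support, ?_, x,
    w'.end_mem_support, y, h2, h3, h4⟩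
  intro z hz
  exact h1 z hz

variable {g : ℕ}

/-- The invariant of the construction: `D a` (`a : Fin g`) are the branch sets, `h a` the index
of the scheme at which `D a` is rooted, `K a` the set of indices already used by `D a`. -/
structure Inv (G : SimpleGraph V) (v : Fin p → V) (C : Fin p → Fin p → Set V) (h : Fin g → Fin p)
    (D : Fin g → Set V) (K : Fin g → Set (Fin p)) : Prop where
  root : ∀ a, v (h a) ∈ D a
  conn : ∀ a, (G.induce (D a)).Connected
  sub : ∀ a, ∀ x ∈ D a, x = v (h a) ∨ ∃ k ∈ K a, x ∈ C k (h a)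
  disj : ∀ a b, a ≠ b → ∀ x ∈ D a, x ∉ D b
  helper : ∀ a, ∀ k ∈ K a, ∀ b, k ≠ h b

lemma IsScheme.notMem (hS : IsScheme G v C) (hp : 4 ≤ p) {i j l : Fin p} (hij : i ≠ j)
    (hli : l ≠ i) (hlj : l ≠ j) : v l ∉ C i j := by
  intro hmem
  have : ∃ m : Fin p, m ≠ i ∧ m ≠ j ∧ m ≠ l := by
    by_contra hcon
    push Not at hcon
    have hcard : (Finset.univ : Finset (Fin p)) ⊆ {i, j, l} := by
      intro m _
      simp only [Finset.mem_insert, Finset.mem_singleton]
      by_contra hm
      push Not at hm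
      exact hm.2.2 (hcon m hm.1 hm.2.1)
    have h1 := Finset.card_le_card hcard
    have h2 : (({i, j, l} : Finset (Fin p))).card ≤ 3 := Finset.card_le_three
    simp only [Finset.card_univ, Fintype.card_fin] at h1
    omega
  obtain ⟨m, hmi, hmj, hml⟩ := this
  have h1 := hS.disj i j l m hij (Ne.symm hli) (Ne.symm hmi) (Ne.symm hlj) (Ne.symm hmj)
    (Ne.symm hml)
  have h2 : v l ∈ C i j ∩ C l m := ⟨hmem, (hS.mem l m (Ne.symm hml)).1⟩
  rw [h1] at h2
  exact h2

/-- The fundamental disjointness: the part `C k (h a)` of a helper index `k` meets `D b`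
(`b ≠ a`) only if `k` was already used for `b`. -/
lemma Inv.meet (hS : IsScheme G v C) (hp : 4 ≤ p) {h : Fin g → Fin p} (hh : Function.Injective h)
    {D : Fin g → Set V} {K : Fin g → Set (Fin p)} (hI : Inv G v C h D K) {a b : Fin g}
    (hab : a ≠ b) {k : Fin p} (hk : ∀ c, k ≠ h c) {x : V} (hx : x ∈ C k (h a)) (hxb : x ∈ D b) :
    k ∈ K b := by
  rcases hI.sub b x hxb with rfl | ⟨k', hk', hx'⟩
  · exact absurd hx (hS.notMem hp (hk a) (Ne.symm (hk b)) (fun e => hab (hh e).symm))
  · by_contra hkb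
    have hne : k ≠ k' := by rintro rfl; exact hkb hk'
    have h1 := hS.disj k (h a) k' (h b) (hk a) hne (hk b)
      (Ne.symm (hI.helper b k' hk' a)) (fun e => hab (hh e)) (hI.helper b k' hk' b)
    have h2 : x ∈ C k (h a) ∩ C k' (h b) := ⟨hx, hx'⟩
    rw [h1] at h2
    exact h2

open Classical in
/-- Extension of one branch set `D a` by the helper index `k`. -/
lemma Inv.extend (hS : IsScheme G v C) (hp : 4 ≤ p) {h : Fin g → Fin p}
    (hh : Function.Injective h) {D : Fin g → Set V} {K : Fin g → Set (Fin p)}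
    (hI : Inv G v C h D K) (a : Fin g) {k : Fin p} (hk : ∀ c, k ≠ h c) :
    ∃ D' : Fin g → Set V, Inv G v C h D' (Function.update K a (insert k (K a))) ∧
      (∀ b, D b ⊆ D' b) ∧
      ((∃ b, b ≠ a ∧ k ∈ K b ∧ Touch G (D' a) (D' b)) ∨
        (v k ∈ D' a ∧ ∀ b, b ≠ a → v k ∉ D b)) := by
  -- it suffices to find the added part `W`
  have key : ∀ W : Set V, v (h a) ∈ W → (G.induce W).Connected → W ⊆ C k (h a) →
      (∀ b, b ≠ a → ∀ x ∈ W, x ∉ D b) →
      Inv G v C h (Function.update D a (D a ∪ W)) (Function.update K a (insert k (K a))) ∧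
        (∀ b, D b ⊆ Function.update D a (D a ∪ W) b) := by
    intro W haW hWc hWs hWd
    refine ⟨⟨?_, ?_, ?_, ?_, ?_⟩, ?_⟩
    · intro b
      by_cases hb : b = a
      · subst hb; simp [hI.root b]
      · simp [hb, hI.root b]
    · intro b
      by_cases hb : b = a
      · subst hb
        rw [Function.update_self]
        exact SimpleGraph.induce_union_connected (hI.conn b).preconnected hWc.preconnected
          ⟨v (h b), hI.root b, haW⟩
      · rw [Function.update_of_ne hb]; exact hI.conn b
    · intro b x hx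
      by_cases hb : b = a
      · subst hb
        rw [Function.update_self] at hx
        rw [Function.update_self]
        rcases hx with hx | hx
        · rcases hI.sub b x hx with h1 | ⟨k', hk', h1⟩
          · exact Or.inl h1
          · exact Or.inr ⟨k', Or.inr hk', h1⟩
        · exact Or.inr ⟨k, Or.inl rfl, hWs hx⟩
      · rw [Function.update_of_ne hb] at hx
        rw [Function.update_of_ne hb]
        exact hI.sub b x hx
    · intro b c hbc x hx
      by_cases hb : b = a
      · subst hb
        rw [Function.update_self] at hx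
        rw [Function.update_of_ne (Ne.symm hbc)]
        rcases hx with hx | hx
        · exact hI.disj b c hbc x hx
        · exact hWd c (Ne.symm hbc) x hx
      · rw [Function.update_of_ne hb] at hx
        by_cases hc : c = a
        · subst hc
          rw [Function.update_self]
          rintro (h1 | h1)
          · exact hI.disj b c hbc x hx h1
          · exact hWd b hb x h1 hx
        · rw [Function.update_of_ne hc]
          exact hI.disj b c hbc x hx
    · intro b k' hk' c
      by_cases hb : b = a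
      · subst hb
        rw [Function.update_self] at hk'
        rcases hk' with rfl | hk'
        · exact hk c
        · exact hI.helper b k' hk' c
      · rw [Function.update_of_ne hb] at hk'
        exact hI.helper b k' hk' c
    · intro b
      by_cases hb : b = a
      · subst hb; rw [Function.update_self]; exact Set.subset_union_left
      · rw [Function.update_of_ne hb]
  have hmemk := hS.mem k (h a) (hk a)
  by_cases hE : ∃ y ∈ C k (h a), ∃ b, b ≠ a ∧ y ∈ D b
  · obtain ⟨y, hy, b, hba, hyb⟩ := hE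
    obtain ⟨W, haW, hWc, hW, x, hx, z, hzE, hzS, hxz⟩ :=
      exists_part (E := {y | ∃ b, b ≠ a ∧ y ∈ D b}) (hS.conn k (h a) (hk a)) hmemk.2 hy
        (by
          rintro ⟨c, hca, hc⟩
          exact hI.disj a c (Ne.symm hca) _ (hI.root a) hc)
        ⟨b, hba, hyb⟩
    obtain ⟨c, hca, hzc⟩ := hzE
    obtain ⟨h1, h2⟩ := key W haW hWc (fun z hz => (hW z hz).1)
      (fun b hb x hx hxb => (hW x hx).2 ⟨b, hb, hxb⟩)
    refine ⟨_, h1, h2, Or.inl ⟨c, hca, hI.meet hS hp hh (Ne.symm hca) hk hzS hzc, ?_⟩⟩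
    refine ⟨x, ?_, z, h2 c hzc, hxz⟩
    rw [Function.update_self]
    exact Or.inr hx
  · push Not at hE
    obtain ⟨h1, h2⟩ := key (C k (h a)) hmemk.2 (hS.conn k (h a) (hk a)) (fun z hz => hz)
      (fun b hb x hx => hE x hx b hb)
    refine ⟨_, h1, h2, Or.inr ⟨?_, ?_⟩⟩
    · rw [Function.update_self]; exact Or.inr hmemk.1
    · intro b hb
      exact hE _ hmemk.1 b hb

/-- A list such that each member but the last is related to a later one. -/
def TreeOn {α : Type*} (R : α → α → Prop) : List α → Prop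
  | [] => True
  | a :: L => (L = [] ∨ ∃ b ∈ L, R a b) ∧ TreeOn R L

lemma TreeOn.mono {α : Type*} {R R' : α → α → Prop} (hR : ∀ a b, R a b → R' a b) :
    ∀ L : List α, TreeOn R L → TreeOn R' L
  | [], _ => trivial
  | _ :: L, h => ⟨h.1.imp id (fun ⟨b, hb, hab⟩ => ⟨b, hb, hR _ _ hab⟩), TreeOn.mono hR L h.2⟩

open Classical in
/-- One fresh helper index `k` makes the touching relation on any list of branch sets
connected. -/
lemma Inv.step (hS : IsScheme G v C) (hp : 4 ≤ p) {h : Fin g → Fin p}
    (hh : Function.Injective h) {D : Fin g → Set V} {K : Fin g → Set (Fin p)}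
    (hI : Inv G v C h D K) {k : Fin p} (hk : ∀ c, k ≠ h c) (hfresh : ∀ b, k ∉ K b) :
    ∀ L : List (Fin g), L.Nodup →
    ∃ (D' : Fin g → Set V) (K' : Fin g → Set (Fin p)), Inv G v C h D' K' ∧ (∀ b, D b ⊆ D' b) ∧
      (∀ b k', k' ∈ K' b → k' = k ∨ k' ∈ K b) ∧ (∀ b, k ∈ K' b → b ∈ L) ∧
      (L ≠ [] → ∃ b ∈ L, v k ∈ D' b) ∧
      TreeOn (fun a b => Touch G (D' a) (D' b)) L := by
  intro L
  induction L with
  | nil =>
    intro _
    exact ⟨D, K, hI, fun b => Subset.rfl, fun b k' hk' => Or.inr hk',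
      fun b hb => absurd hb (hfresh b), fun h => absurd rfl h, trivial⟩
  | cons a L ih =>
    intro hnd
    rw [List.nodup_cons] at hnd
    obtain ⟨D1, K1, hI1, hD1, hK1, hkL, hvk, hT⟩ := ih hnd.2
    obtain ⟨D2, hI2, hD2, hcase⟩ := hI1.extend hS hp hh a hk
    refine ⟨D2, _, hI2, fun b => (hD1 b).trans (hD2 b), ?_, ?_, ?_, ?_, ?_⟩
    · intro b k' hk'
      by_cases hb : b = a
      · subst hb
        rw [Function.update_self] at hk'
        rcases hk' with rfl | hk'
        · exact Or.inl rfl
        · exact hK1 b k' hk'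
      · rw [Function.update_of_ne hb] at hk'
        exact hK1 b k' hk'
    · intro b hb'
      by_cases hb : b = a
      · subst hb; simp
      · rw [Function.update_of_ne hb] at hb'
        exact List.mem_cons_of_mem _ (hkL b hb')
    · intro _
      by_cases hL : L = []
      · subst hL
        rcases hcase with ⟨b, hba, hkb, _⟩ | ⟨h1, _⟩
        · exact absurd (hkL b hkb) (by simp)
        · exact ⟨a, by simp, h1⟩
      · obtain ⟨b, hbL, hb⟩ := hvk hL
        exact ⟨b, List.mem_cons_of_mem _ hbL, hD2 b hb⟩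
    · by_cases hL : L = []
      · exact Or.inl hL
      · right
        obtain ⟨b0, hb0L, hb0⟩ := hvk hL
        rcases hcase with ⟨b, hba, hkb, ht⟩ | ⟨_, h2⟩
        · exact ⟨b, hkL b hkb, ht⟩
        · have hne : b0 ≠ a := by rintro rfl; exact hnd.1 hb0L
          exact absurd hb0 (h2 b0 hne)
    · exact TreeOn.mono (fun a b hab => hab.mono (hD2 a) (hD2 b)) L hT

end PScheme
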