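import Pool.Agent.PScheme.Defs

/-!
# Upper bound for `gNum`: incidence graphs of affine triple systems
-/

namespace PScheme

open Set

variable {p n : ℕ}

/-- `b` is a block: three distinct indices whose images under `φ` sum to zero. -/
def IsBlock (φ : Fin p → (Fin n → ZMod 3)) (b : Finset (Fin p)) : Prop :=
  ∃ i j k, i ≠ j ∧ i ≠ k ∧ j ≠ k ∧ b = {i, j, k} ∧ φ i + φ j + φ k = 0

lemma IsBlock.card {φ : Fin p → (Fin n → ZMod 3)} {b : Finset (Fin p)} (h : IsBlock φ b) :
    b.card = 3 := by
  obtain ⟨i, j, k, hij, hik, hjk, rfl, -⟩ := h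
  exact Finset.card_eq_three.2 ⟨i, j, k, hij, hik, hjk, rfl⟩

lemma IsBlock.sum {φ : Fin p → (Fin n → ZMod 3)} {b : Finset (Fin p)} (h : IsBlock φ b) :
    ∑ x ∈ b, φ x = 0 := by
  obtain ⟨i, j, k, hij, hik, hjk, rfl, h0⟩ := h
  rw [Finset.sum_insert (by simp [hij, hik]), Finset.sum_insert (by simp [hjk]),
    Finset.sum_singleton, ← add_assoc]
  exact h0

/-- Two blocks through two common points coincide. -/
lemma IsBlock.unique {φ : Fin p → (Fin n → ZMod 3)} (hφ : Function.Injective φ)
    {b b' : Finset (Fin p)} (h : IsBlock φ b) (h' : IsBlock φ b') {i j : Fin p} (hij : i ≠ j)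
    (hi : i ∈ b) (hj : j ∈ b) (hi' : i ∈ b') (hj' : j ∈ b') : b = b' := by
  classical
  have aux : ∀ c : Finset (Fin p), IsBlock φ c → i ∈ c → j ∈ c →
      ∃ k, c = {i, j, k} ∧ φ k = -(φ i + φ j) := by
    intro c hc hic hjc
    have h1 := hc.card
    have h2 : ((c.erase i).erase j).card = 1 := by
      rw [Finset.card_erase_of_mem (Finset.mem_erase.2 ⟨hij.symm, hjc⟩),
        Finset.card_erase_of_mem hic, h1]
    obtain ⟨k, hk⟩ := Finset.card_eq_one.1 h2
    refine ⟨k, ?_, ?_⟩
    · rw [← Finset.insert_erase hic, ← Finset.insert_erase (Finset.mem_erase.2 ⟨hij.symm, hjc⟩), hk]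
    · have h3 := hc.sum
      rw [← Finset.add_sum_erase c φ hic,
        ← Finset.add_sum_erase (c.erase i) φ (Finset.mem_erase.2 ⟨hij.symm, hjc⟩), hk,
        Finset.sum_singleton, ← add_assoc] at h3
      exact eq_neg_of_add_eq_zero_right h3
  obtain ⟨k, hk, hk1⟩ := aux b h hi hj
  obtain ⟨k', hk', hk1'⟩ := aux b' h' hi' hj'
  have : k = k' := hφ (hk1.trans hk1'.symm)
  rw [hk, hk', this]

/-- The graph: points `inl i`, blocks `inr b`; a point is joined to the blocks containing it, and
two points are joined when no block contains both. -/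
def blockGraph (φ : Fin p → (Fin n → ZMod 3)) : SimpleGraph (Fin p ⊕ Finset (Fin p)) where
  Adj x y := match x, y with
    | Sum.inl i, Sum.inl j => i ≠ j ∧ ∀ b, IsBlock φ b → i ∈ b → j ∉ b
    | Sum.inl i, Sum.inr b => IsBlock φ b ∧ i ∈ b
    | Sum.inr b, Sum.inl i => IsBlock φ b ∧ i ∈ b
    | Sum.inr _, Sum.inr _ => False
  symm := ⟨by
    rintro (i | b) (j | c) h
    · exact ⟨h.1.symm, fun b hb hj hi => h.2 b hb hi hj⟩
    · exact h
    · exact h
    · exact h⟩
  loopless := ⟨by
    rintro (i | b) h
    · exact h.1 rfl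
    · exact h⟩

lemma adj_ll {φ : Fin p → (Fin n → ZMod 3)} {i j : Fin p} :
    (blockGraph φ).Adj (Sum.inl i) (Sum.inl j) ↔
      i ≠ j ∧ ∀ b, IsBlock φ b → i ∈ b → j ∉ b := Iff.rfl

lemma adj_lr {φ : Fin p → (Fin n → ZMod 3)} {i : Fin p} {b : Finset (Fin p)} :
    (blockGraph φ).Adj (Sum.inl i) (Sum.inr b) ↔ IsBlock φ b ∧ i ∈ b := Iff.rfl

lemma adj_rl {φ : Fin p → (Fin n → ZMod 3)} {i : Fin p} {b : Finset (Fin p)} :
    (blockGraph φ).Adj (Sum.inr b) (Sum.inl i) ↔ IsBlock φ b ∧ i ∈ b := Iff.rfl

lemma adj_rr {φ : Fin p → (Fin n → ZMod 3)} {b c : Finset (Fin p)} :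
    ¬ (blockGraph φ).Adj (Sum.inr b) (Sum.inr c) := fun h => h

/-- The connecting sets of the scheme. -/
def blockSet (φ : Fin p → (Fin n → ZMod 3)) (i j : Fin p) : Set (Fin p ⊕ Finset (Fin p)) :=
  {x | x = Sum.inl i ∨ x = Sum.inl j ∨ ∃ b, IsBlock φ b ∧ i ∈ b ∧ j ∈ b ∧ x = Sum.inr b}

lemma blockSet_connected (φ : Fin p → (Fin n → ZMod 3)) {i j : Fin p} (hij : i ≠ j) :
    ((blockGraph φ).induce (blockSet φ i j)).Connected := by
  have hi : (Sum.inl i : Fin p ⊕ Finset (Fin p)) ∈ blockSet φ i j := Or.inl rfl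
  have hj : (Sum.inl j : Fin p ⊕ Finset (Fin p)) ∈ blockSet φ i j := Or.inr (Or.inl rfl)
  have key : ∀ x : blockSet φ i j,
      ((blockGraph φ).induce (blockSet φ i j)).Reachable x ⟨Sum.inl i, hi⟩ := by
    have hblock : ∀ b (hb : IsBlock φ b) (hib : i ∈ b) (hjb : j ∈ b),
        ((blockGraph φ).induce (blockSet φ i j)).Adj
          ⟨Sum.inr b, Or.inr (Or.inr ⟨b, hb, hib, hjb, rfl⟩)⟩ ⟨Sum.inl i, hi⟩ := by
      intro b hb hib hjb
      exact (adj_rl.2 ⟨hb, hib⟩ : (blockGraph φ).Adj (Sum.inr b) (Sum.inl i))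
    rintro ⟨x, hx⟩
    rcases hx with rfl | rfl | ⟨b, hb, hib, hjb, rfl⟩
    · exact SimpleGraph.Reachable.refl _
    · by_cases hex : ∃ b, IsBlock φ b ∧ i ∈ b ∧ j ∈ b
      · obtain ⟨b, hb, hib, hjb⟩ := hex
        have h1 : ((blockGraph φ).induce (blockSet φ i j)).Adj ⟨Sum.inl j, hj⟩
            ⟨Sum.inr b, Or.inr (Or.inr ⟨b, hb, hib, hjb, rfl⟩)⟩ :=
          (adj_lr.2 ⟨hb, hjb⟩ : (blockGraph φ).Adj (Sum.inl j) (Sum.inr b))
        exact h1.reachable.trans (hblock b hb hib hjb).reachable
      · push Not at hex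
        have h1 : ((blockGraph φ).induce (blockSet φ i j)).Adj ⟨Sum.inl j, hj⟩ ⟨Sum.inl i, hi⟩ :=
          (adj_ll.2 ⟨hij.symm, fun b hb hjb hib => hex b hb hib hjb⟩ :
            (blockGraph φ).Adj (Sum.inl j) (Sum.inl i))
        exact h1.reachable
    · exact (hblock b hb hib hjb).reachable
  have : Nonempty (blockSet φ i j) := ⟨⟨_, hi⟩⟩
  exact SimpleGraph.Connected.mk fun x y => (key x).trans (key y).symm

lemma block_scheme (φ : Fin p → (Fin n → ZMod 3)) :
    IsScheme (blockGraph φ) (fun i : Fin p => Sum.inl i) (blockSet φ) where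
  inj := Sum.inl_injective
  symm i j := by
    ext x
    simp only [blockSet, Set.mem_ofPred_eq]
    constructor
    · rintro (h | h | ⟨b, h1, h2, h3, h4⟩)
      · exact Or.inr (Or.inl h)
      · exact Or.inl h
      · exact Or.inr (Or.inr ⟨b, h1, h3, h2, h4⟩)
    · rintro (h | h | ⟨b, h1, h2, h3, h4⟩)
      · exact Or.inr (Or.inl h)
      · exact Or.inl h
      · exact Or.inr (Or.inr ⟨b, h1, h3, h2, h4⟩)
  conn i j hij := blockSet_connected φ hij
  mem i j _ := ⟨Or.inl rfl, Or.inr (Or.inl rfl)⟩
  disj i j k l hij hik hil hjk hjl hkl := by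
    classical
    ext x
    constructor
    · rintro ⟨h1, h2⟩
      rcases h1 with rfl | rfl | ⟨b, hb, hib, hjb, rfl⟩
      · rcases h2 with h2 | h2 | ⟨b, _, _, _, h2⟩
        · exact hik (Sum.inl_injective h2)
        · exact hil (Sum.inl_injective h2)
        · exact absurd h2 (by simp)
      · rcases h2 with h2 | h2 | ⟨b, _, _, _, h2⟩
        · exact hjk (Sum.inl_injective h2)
        · exact hjl (Sum.inl_injective h2)
        · exact absurd h2 (by simp)
      · rcases h2 with h2 | h2 | ⟨c, hc, hkc, hlc, h2⟩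
        · exact absurd h2 (by simp)
        · exact absurd h2 (by simp)
        · have hbc : b = c := Sum.inr_injective h2
          subst hbc
          have hsub : ({i, j, k, l} : Finset (Fin p)) ⊆ b := by
            intro y hy
            simp only [Finset.mem_insert, Finset.mem_singleton] at hy
            rcases hy with rfl | rfl | rfl | rfl <;> assumption
          have h4 : ({i, j, k, l} : Finset (Fin p)).card = 4 := by
            rw [Finset.card_insert_of_notMem (by simp [hij, hik, hil]),
              Finset.card_insert_of_notMem (by simp [hjk, hjl]),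
              Finset.card_insert_of_notMem (by simp [hkl]), Finset.card_singleton]
          have h5 := Finset.card_le_card hsub
          rw [hb.card, h4] at h5
          omega
    · intro h; exact h.elim

/-- In a connected vertex set with at least two elements every vertex has a neighbour. -/
lemma exists_nbr {V : Type*} {G : SimpleGraph V} {S : Set V} (hS : (G.induce S).Connected)
    {x y : V} (hx : x ∈ S) (hy : y ∈ S) (hxy : x ≠ y) : ∃ z ∈ S, G.Adj x z := by
  obtain ⟨w⟩ := hS.preconnected ⟨x, hx⟩ ⟨y, hy⟩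
  cases w with
  | nil => exact absurd rfl hxy
  | @cons _ c _ h w => exact ⟨c.1, c.2, h⟩

open Classical in
/-- If the incidence graph is contractible onto `K_g`, `g ≥ 5`, there is a set of `s` points
without block such that `2 g ≤ p + s`. -/
lemma block_minor {φ : Fin p → (Fin n → ZMod 3)} (hφ : Function.Injective φ) {g : ℕ}
    (hg : 5 ≤ g) (h : ContractsOnto (blockGraph φ) g) :
    ∃ T : Finset (Fin p), 2 * g ≤ p + T.card ∧
      ∀ i ∈ T, ∀ j ∈ T, ∀ k ∈ T, i ≠ j → i ≠ k → j ≠ k → φ i + φ j + φ k ≠ 0 := by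
  obtain ⟨B, hconn, hdisj, hadj⟩ := h
  have hdisj' : ∀ {s t : Fin g} {x}, x ∈ B s → x ∈ B t → s = t := by
    intro s t x hs ht
    by_contra hst
    have h1 : x ∈ B s ∩ B t := ⟨hs, ht⟩
    rw [hdisj s t hst] at h1
    exact h1
  -- points of a branch set
  let P : Fin g → Finset (Fin p) := fun s => Finset.univ.filter fun i => Sum.inl i ∈ B s
  have hP : ∀ s i, i ∈ P s ↔ Sum.inl i ∈ B s := by
    intro s i; simp [P]
  -- every branch set contains a point
  have hne : ∀ s, (P s).Nonempty := by
    intro s
    by_contra hempty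
    rw [Finset.not_nonempty_iff_eq_empty] at hempty
    have hno : ∀ i, Sum.inl i ∉ B s := by
      intro i hi
      have := (hP s i).2 hi
      rw [hempty] at this
      simp at this
    obtain ⟨⟨x, hx⟩⟩ := (hconn s).nonempty
    have hsub : ∀ y ∈ B s, y = x := by
      intro y hy
      by_contra hyx
      obtain ⟨z, hz, hyz⟩ := exists_nbr (hconn s) hy hx hyx
      rcases y with i | b
      · exact hno i hy
      · rcases z with j | c
        · exact hno j hz
        · exact adj_rr hyz
    rcases x with i | b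
    · exact hno i hx
    · have hch : ∀ t : Fin g, t ≠ s → ∃ i ∈ b, Sum.inl i ∈ B t ∧ IsBlock φ b := by
        intro t ht
        obtain ⟨x, hxs, y, hyt, hxy⟩ := hadj s t (Ne.symm ht)
        rw [hsub x hxs] at hxy
        rcases y with i | c
        · exact ⟨i, hxy.2, hyt, hxy.1⟩
        · exact absurd hxy adj_rr
      have hnt : ∃ t : Fin g, t ≠ s := by
        have : Nontrivial (Fin g) := Fin.nontrivial_iff_two_le.2 (by omega)
        exact exists_ne s
      have hnp : Nonempty (Fin p) := by
        obtain ⟨t, ht⟩ := hnt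
        obtain ⟨i, _⟩ := hch t ht
        exact ⟨i⟩
      choose! f hf1 hf2 hf3 using hch
      have hb : IsBlock φ b := by
        obtain ⟨t, ht⟩ := hnt
        exact hf3 t ht
      have hinj : Set.InjOn f ((Finset.univ.erase s : Finset (Fin g)) : Set (Fin g)) := by
        intro t ht u hu htu
        have ht' : t ≠ s := by simpa using ht
        have hu' : u ≠ s := by simpa using hu
        have h1 := hf2 t ht'
        have h2 := hf2 u hu'
        rw [← htu] at h2
        exact hdisj' h1 h2
      have hcard := Finset.card_le_card_of_injOn f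
        (s := (Finset.univ.erase s : Finset (Fin g))) (t := b)
        (by
          intro t ht
          have ht' : t ≠ s := by simpa using ht
          exact hf1 t ht') hinj
      rw [Finset.card_erase_of_mem (Finset.mem_univ s), Finset.card_univ, Fintype.card_fin,
        hb.card] at hcard
      omega
  -- singles
  let S : Finset (Fin g) := Finset.univ.filter fun s => (P s).card = 1
  choose f hf using fun s => hne s
  have hf' : ∀ s, Sum.inl (f s) ∈ B s := fun s => (hP s _).1 (hf s)
  have hfinj : Function.Injective f := by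
    intro s t hst
    have h1 := hf' s
    have h2 := hf' t
    rw [← hst] at h2
    exact hdisj' h1 h2
  -- in a single branch set the only point is `f s`
  have hsingle : ∀ s ∈ S, ∀ i, Sum.inl i ∈ B s → i = f s := by
    intro s hs i hi
    have hc : (P s).card = 1 := (Finset.mem_filter.1 hs).2
    obtain ⟨a, ha⟩ := Finset.card_eq_one.1 hc
    have h1 : i ∈ P s := (hP s i).2 hi
    have h2 := hf s
    rw [ha, Finset.mem_singleton] at h1 h2
    rw [h1, h2]
  -- blocks in a single branch set contain `f s`
  have hsb : ∀ s ∈ S, ∀ b, Sum.inr b ∈ B s → IsBlock φ b ∧ f s ∈ b := by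
    intro s hs b hb
    obtain ⟨z, hz, hbz⟩ := exists_nbr (hconn s) hb (hf' s) (by simp)
    rcases z with i | c
    · have := hsingle s hs i hz
      subst this
      exact hbz
    · exact absurd hbz adj_rr
  -- two single branch sets are adjacent only through a block containing both points
  have hpair : ∀ s ∈ S, ∀ t ∈ S, s ≠ t → ∀ b, IsBlock φ b → f s ∈ b → f t ∈ b →
      Sum.inr b ∈ B s ∨ Sum.inr b ∈ B t := by
    intro s hs t ht hst b hb hsb' htb'
    have hfst : f s ≠ f t := fun e => hst (hfinj e)
    obtain ⟨x, hx, y, hy, hxy⟩ := hadj s t hst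
    rcases x with i | c
    · have hi := hsingle s hs i hx
      subst hi
      rcases y with j | c
      · have hj := hsingle t ht j hy
        subst hj
        exact absurd htb' (hxy.2 b hb hsb')
      · have h1 := hsb t ht c hy
        have h2 : IsBlock φ c ∧ f s ∈ c := hxy
        have : b = c := hb.unique hφ h1.1 hfst hsb' htb' h2.2 h1.2
        subst this
        exact Or.inr hy
    · rcases y with j | d
      · have hj := hsingle t ht j hy
        subst hj
        have h1 := hsb s hs c hx
        have h2 : IsBlock φ c ∧ f t ∈ c := hxy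
        have : b = c := hb.unique hφ h1.1 hfst hsb' htb' h1.2 h2.2
        subst this
        exact Or.inl hx
      · exact absurd hxy adj_rr
  refine ⟨S.image f, ?_, ?_⟩
  · rw [Finset.card_image_of_injective _ hfinj]
    -- counting points
    have hdisjP : (Finset.univ : Finset (Fin g)).sum (fun s => (P s).card) ≤ p := by
      rw [← Finset.card_biUnion]
      · calc (Finset.univ.biUnion P).card ≤ (Finset.univ : Finset (Fin p)).card :=
            Finset.card_le_card (Finset.subset_univ _)
          _ = p := by simp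
      · intro s _ t _ hst
        rw [Function.onFun, Finset.disjoint_left]
        intro i hi hi'
        exact hst (hdisj' ((hP s i).1 hi) ((hP t i).1 hi'))
    have hlow : ∀ s : Fin g, 2 ≤ (P s).card + if s ∈ S then 1 else 0 := by
      intro s
      have h1 : 1 ≤ (P s).card := Finset.card_pos.2 (hne s)
      split_ifs with hs
      · omega
      · have : (P s).card ≠ 1 := fun e => hs (Finset.mem_filter.2 ⟨Finset.mem_univ _, e⟩)
        omega
    have hsum : (Finset.univ : Finset (Fin g)).sum (fun _ => 2) ≤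
        (Finset.univ : Finset (Fin g)).sum (fun s => (P s).card + if s ∈ S then 1 else 0) :=
      Finset.sum_le_sum fun s _ => hlow s
    rw [Finset.sum_add_distrib, Finset.sum_ite_mem, Finset.univ_inter, Finset.sum_const,
      Finset.sum_const, Finset.card_univ, Fintype.card_fin] at hsum
    simp only [smul_eq_mul, mul_one] at hsum
    omega
  · intro i hi j hj k hk hij hik hjk h0
    obtain ⟨s, hs, rfl⟩ := Finset.mem_image.1 hi
    obtain ⟨t, ht, rfl⟩ := Finset.mem_image.1 hj
    obtain ⟨u, hu, rfl⟩ := Finset.mem_image.1 hk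
    have hst : s ≠ t := fun e => hij (by rw [e])
    have hsu : s ≠ u := fun e => hik (by rw [e])
    have htu : t ≠ u := fun e => hjk (by rw [e])
    set b : Finset (Fin p) := {f s, f t, f u} with hbdef
    have hb : IsBlock φ b := ⟨f s, f t, f u, hij, hik, hjk, rfl, h0⟩
    have h1 := hpair s hs t ht hst b hb (by simp [b]) (by simp [b])
    have h2 := hpair s hs u hu hsu b hb (by simp [b]) (by simp [b])
    have h3 := hpair t ht u hu htu b hb (by simp [b]) (by simp [b])
    rcases h1 with h1 | h1
    · rcases h3 with h3 | h3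
      · exact hst (hdisj' h1 h3)
      · exact hsu (hdisj' h1 h3)
    · rcases h2 with h2 | h2
      · exact hst (hdisj' h2 h1)
      · exact htu (hdisj' h1 h2)

end PScheme
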